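import Pool.Agent.H46.LX.Def

/-!
# Module Cls (about 150 lines): estimates in a class

Write `ρ = rho M n k = 2^M / 2^k / 4^n`. Proofs.
`nd_pos`: `0 < c ≤ q nd(q α)`. `dd_nonneg`, `del_pos`, `del_le`: `1 + dd ≥ 1`, the power is `≤ 1`.
`stg_pos`: `lam q / del q ≥ c q 2^κ ≥ 2`, so its logarithm is `≥ 1`.
`lam_le`: `logb 2 (lam/del) ≤ stg q` (`Nat.le_ceil`), so `lam/del ≤ 2^(stg q)`.
`lt_lam`: `logb 2 (lam/del) > stg q - 1` (`Nat.ceil_lt_add_one`, the logarithm is positive).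
`κ_le`: `1/2^(k+1) < del q ≤ 1/2^κ`.
`nd_le`: `q² nd(q α) = lam q ≤ del q 2^M ≤ 2^M/2^k` and `q² ≥ 4^n`.
`le_nd`: `q² nd(q α) = lam q > del q 2^M/2 > 2^M/2^(k+2)` and `q² ≤ 4^(n+1)`.
`line`: `log₂ ρ = M - k - 2 n`, `log₂ nd(q α) ∈ [log₂ ρ - 4, log₂ ρ]`, `log₂ q ∈ [n, n+1]`,
`φ` is 1-Lipschitz, so `|φ (n+1) + M - k - 2 n| ≤ dd q + 1 + 4`.
`dd_lt`: `2^(-κ) (1+dd)^(-(1+ε)) = del q > 1/2^(k+1)`.
`c_le`: `c ≤ q nd(q α) ≤ 2^(n+1) ρ`.
-/

set_option autoImplicit false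

namespace Pool.Agent.H46.LX

open Real

theorem nd_nonneg (x : ℝ) : 0 ≤ nd x := abs_nonneg _

theorem nd_le_half (x : ℝ) : nd x ≤ 1 / 2 := abs_sub_round x

theorem nd_le_abs (x : ℝ) (r : ℤ) : nd x ≤ |x - r| := round_le x r

namespace Par

variable (P : Par)

theorem nd_pos {q : ℕ} (hq : 1 ≤ q) : 0 < nd (q * P.α) := by
  have h1 := P.bad q hq
  have h2 := P.c0
  have h3 : (0 : ℝ) < q := by exact_mod_cast hq
  by_contra h
  have h4 : (q : ℝ) * nd (q * P.α) ≤ 0 := mul_nonpos_of_nonneg_of_nonpos h3.le (not_lt.1 h)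
  linarith

theorem PP_pos {q : ℕ} (hq : 1 ≤ q) : 0 < P.PP q :=
  mul_pos (by exact_mod_cast hq) (P.nd_pos hq)

theorem lam_pos {q : ℕ} (hq : 1 ≤ q) : 0 < P.lam q :=
  mul_pos (by exact_mod_cast hq) (P.PP_pos hq)

theorem dd_nonneg (q : ℕ) : 0 ≤ P.dd q := abs_nonneg _

theorem del_pos (q : ℕ) : 0 < P.del q := by
  have h := P.dd_nonneg q
  exact div_pos (Real.rpow_pos_of_pos (by linarith) _) (by positivity)

theorem del_le (q : ℕ) : P.del q ≤ 1 / 2 ^ P.κ := by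
  have h := P.dd_nonneg q
  have he := P.ε0
  unfold del
  gcongr
  exact Real.rpow_le_one_of_one_le_of_nonpos (by linarith) (by linarith)

private theorem cls_two {q : ℕ} (hq : 1 ≤ q) : 2 ≤ P.lam q / P.del q := by
  have hd := P.del_pos q
  have hd2 := P.del_le q
  have hk := P.κc
  have hb := P.bad q hq
  have hc := P.c0
  have h3 : (1 : ℝ) ≤ q := by exact_mod_cast hq
  rw [le_div_iff₀ hd]
  have hp : (0 : ℝ) < 2 ^ P.κ := by positivity
  have h4 : P.c ≤ P.lam q := by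
    unfold lam PP
    nlinarith
  calc 2 * P.del q ≤ 2 * (1 / 2 ^ P.κ) := by gcongr
    _ ≤ (P.c * 2 ^ P.κ) * (1 / 2 ^ P.κ) := by gcongr
    _ = P.c := by field_simp
    _ ≤ P.lam q := h4

private theorem cls_log {q : ℕ} (hq : 1 ≤ q) : 1 ≤ logb 2 (P.lam q / P.del q) := by
  have h := P.cls_two hq
  have h2 := Real.logb_le_logb_of_le (b := 2) (by norm_num) (by norm_num) h
  rwa [Real.logb_self_eq_one (by norm_num)] at h2

theorem stg_pos {q : ℕ} (hq : 1 ≤ q) : 1 ≤ P.stg q := by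
  have h := P.cls_log hq
  have h2 : (0 : ℝ) < logb 2 (P.lam q / P.del q) := by linarith
  exact Nat.ceil_pos.2 h2

theorem lam_le {q : ℕ} (hq : 1 ≤ q) : P.lam q ≤ P.del q * 2 ^ P.stg q := by
  have hd := P.del_pos q
  have hl := P.lam_pos hq
  have h1 : logb 2 (P.lam q / P.del q) ≤ (P.stg q : ℝ) := Nat.le_ceil _
  have h2 : P.lam q / P.del q ≤ (2 : ℝ) ^ (P.stg q : ℝ) :=
    (Real.logb_le_iff_le_rpow (by norm_num) (div_pos hl hd)).1 h1
  rw [Real.rpow_natCast, div_le_iff₀ hd] at h2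
  linarith

theorem lt_lam {q : ℕ} (hq : 1 ≤ q) : P.del q * 2 ^ P.stg q / 2 < P.lam q := by
  have hd := P.del_pos q
  have hl := P.lam_pos hq
  have h0 := P.cls_log hq
  have h1 : (P.stg q : ℝ) < logb 2 (P.lam q / P.del q) + 1 := Nat.ceil_lt_add_one (by linarith)
  have h2 : (P.stg q : ℝ) - 1 < logb 2 (P.lam q / P.del q) := by linarith
  have h3 : (2 : ℝ) ^ ((P.stg q : ℝ) - 1) < P.lam q / P.del q :=
    (Real.lt_logb_iff_rpow_lt (by norm_num) (div_pos hl hd)).1 h2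
  rw [Real.rpow_sub (by norm_num), Real.rpow_natCast, Real.rpow_one, lt_div_iff₀ hd] at h3
  linarith

variable {P} {M n k q : ℕ}

theorem Cls.q1 (h : P.Cls M n k q) : 1 ≤ q := le_trans Nat.one_le_two_pow h.lo

theorem Cls.κ_le (h : P.Cls M n k q) : P.κ ≤ k := by
  have h1 : (1 : ℝ) / 2 ^ (k + 1) < 1 / 2 ^ P.κ := h.dlo.trans_le (P.del_le q)
  have h2 : (2 : ℝ) ^ P.κ < 2 ^ (k + 1) :=
    (one_div_lt_one_div (by positivity) (by positivity)).1 h1
  have h3 : P.κ < k + 1 := (pow_lt_pow_iff_right₀ (by norm_num)).1 h2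
  omega

private theorem cls_qpos (h : P.Cls M n k q) : (0 : ℝ) < q := by exact_mod_cast h.q1

private theorem cls_qlo (h : P.Cls M n k q) : (2 : ℝ) ^ n ≤ q := by exact_mod_cast h.lo

private theorem cls_qhi (h : P.Cls M n k q) : (q : ℝ) < 2 ^ (n + 1) := by exact_mod_cast h.hi

private theorem cls_lam (P : Par) (q : ℕ) : P.lam q = (q : ℝ) ^ 2 * nd (q * P.α) := by
  unfold lam PP
  ring

theorem Cls.nd_le (h : P.Cls M n k q) : nd (q * P.α) ≤ rho M n k := by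
  have hq := cls_qpos h
  have h1 := P.lam_le h.q1
  rw [h.stg, cls_lam] at h1
  have h2 : (4 : ℝ) ^ n ≤ (q : ℝ) ^ 2 := by
    have h3 := pow_le_pow_left₀ (by positivity) (cls_qlo h) 2
    calc (4 : ℝ) ^ n = (2 ^ n) ^ 2 := by rw [← pow_mul, mul_comm, pow_mul]; norm_num
      _ ≤ _ := h3
  have h4 : P.del q * 2 ^ M ≤ 2 ^ M / 2 ^ k := by
    calc P.del q * 2 ^ M ≤ 1 / 2 ^ k * 2 ^ M := by gcongr; exact h.dhi
      _ = 2 ^ M / 2 ^ k := by ring
  unfold rho
  rw [le_div_iff₀ (by positivity)]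
  calc nd (q * P.α) * 4 ^ n ≤ nd (q * P.α) * (q : ℝ) ^ 2 := by
        gcongr
        exact nd_nonneg _
    _ = (q : ℝ) ^ 2 * nd (q * P.α) := by ring
    _ ≤ _ := h1.trans h4

theorem Cls.le_nd (h : P.Cls M n k q) : rho M n k / 16 ≤ nd (q * P.α) := by
  have hq := cls_qpos h
  have h1 := P.lt_lam h.q1
  rw [h.stg, cls_lam] at h1
  have hn := nd_nonneg (q * P.α)
  have h2 : (q : ℝ) ^ 2 ≤ 4 ^ (n + 1) := by
    have h3 := pow_le_pow_left₀ hq.le (cls_qhi h).le 2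
    calc (q : ℝ) ^ 2 ≤ (2 ^ (n + 1)) ^ 2 := h3
      _ = _ := by rw [← pow_mul, mul_comm, pow_mul]; norm_num
  have h4 : (2 : ℝ) ^ M / 2 ^ (k + 2) ≤ P.del q * 2 ^ M / 2 := by
    calc (2 : ℝ) ^ M / 2 ^ (k + 2) = 1 / 2 ^ (k + 1) * 2 ^ M / 2 := by
          rw [pow_succ 2 (k + 1)]
          field_simp
      _ ≤ P.del q * 2 ^ M / 2 := by gcongr; exact h.dlo.le
  have h5 : (2 : ℝ) ^ M / 2 ^ (k + 2) ≤ 4 ^ (n + 1) * nd (q * P.α) :=
    calc (2 : ℝ) ^ M / 2 ^ (k + 2) ≤ (q : ℝ) ^ 2 * nd (q * P.α) := h4.trans h1.le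
      _ ≤ _ := by gcongr
  have e : rho M n k / 16 = 2 ^ M / 2 ^ (k + 2) / 4 ^ (n + 1) := by
    unfold rho
    rw [pow_succ 4 n, pow_add 2 k 2]
    field_simp
    norm_num
  rw [e, div_le_iff₀ (by positivity)]
  linarith

private theorem cls_rho_log (M n k : ℕ) : logb 2 (rho M n k) = M - k - 2 * n := by
  unfold rho
  have h4 : (4 : ℝ) ^ n = 2 ^ (2 * n) := by rw [pow_mul]; norm_num
  rw [h4, Real.logb_div (by positivity) (by positivity), Real.logb_div (by positivity) (by positivity),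
    Real.logb_pow, Real.logb_pow, Real.logb_pow, Real.logb_self_eq_one (by norm_num)]
  push_cast
  ring

theorem Cls.line (h : P.Cls M n k q) :
    |P.φ (n + 1) + M - k - 2 * n| ≤ P.dd q + 5 := by
  have hq := cls_qpos h
  have hnd := P.nd_pos h.q1
  have hr : 0 < rho M n k := by unfold rho; positivity
  have l1 : logb 2 (nd (q * P.α)) ≤ M - k - 2 * n := by
    rw [← cls_rho_log]
    exact Real.logb_le_logb_of_le (by norm_num) hnd h.nd_le
  have l2 : (M : ℝ) - k - 2 * n - 4 ≤ logb 2 (nd (q * P.α)) := by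
    have := Real.logb_le_logb_of_le (b := 2) (by norm_num) (by positivity) h.le_nd
    rw [Real.logb_div hr.ne' (by norm_num), cls_rho_log] at this
    have e16 : logb 2 16 = 4 := by
      rw [show (16 : ℝ) = 2 ^ 4 by norm_num, Real.logb_pow, Real.logb_self_eq_one (by norm_num)]
      norm_num
    rw [e16] at this
    exact this
  have q1 : (n : ℝ) ≤ logb 2 q := by
    have := Real.logb_le_logb_of_le (b := 2) (by norm_num) (by positivity) (cls_qlo h)
    rwa [Real.logb_pow, Real.logb_self_eq_one (by norm_num), mul_one] at this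
  have q2 : logb 2 q ≤ n + 1 := by
    have := Real.logb_le_logb_of_le (b := 2) (by norm_num) hq (cls_qhi h).le
    rw [Real.logb_pow, Real.logb_self_eq_one (by norm_num), mul_one] at this
    push_cast at this
    exact this
  set a := P.φ (n + 1) - P.φ (logb 2 q) with ha
  have a1 : |a| ≤ 1 := by
    refine (P.φl _ _).trans ?_
    rw [abs_le]
    constructor <;> linarith
  rw [abs_le] at a1
  set b := (M : ℝ) - k - 2 * n - logb 2 (nd (q * P.α)) with hb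
  have e : P.φ (n + 1) + M - k - 2 * n =
      (P.φ (logb 2 q) + logb 2 (nd (q * P.α))) + (a + b) := by
    rw [ha, hb]
    ring
  rw [e]
  refine (abs_add_le _ _).trans ?_
  have : |a + b| ≤ 5 := by
    rw [abs_le]
    constructor <;> linarith
  unfold dd
  linarith

theorem Cls.dd_lt (h : P.Cls M n k q) : (1 + P.dd q) ^ (1 + P.ε) < 2 ^ (k + 1) / 2 ^ P.κ := by
  have hd := P.dd_nonneg q
  have hA : 0 < (1 + P.dd q) ^ (1 + P.ε) := Real.rpow_pos_of_pos (by linarith) _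
  have h1 := h.dlo
  unfold del at h1
  rw [Real.rpow_neg (by linarith)] at h1
  have h2 : ((1 + P.dd q) ^ (1 + P.ε))⁻¹ / 2 ^ P.κ = 1 / ((1 + P.dd q) ^ (1 + P.ε) * 2 ^ P.κ) := by
    field_simp
  rw [h2] at h1
  have h3 := (one_div_lt_one_div (by positivity) (by positivity)).1 h1
  rw [lt_div_iff₀ (by positivity)]
  exact h3

theorem Cls.c_le (h : P.Cls M n k q) : P.c ≤ 2 ^ (n + 1) * rho M n k :=
  (P.bad q h.q1).trans (mul_le_mul (cls_qhi h).le h.nd_le (nd_nonneg _) (by positivity))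

/-- every `q ≥ 1` of stage `M` lies in a class -/
theorem exists_cls (P : Par) {q : ℕ} (hq : 1 ≤ q) : ∃ n k, P.Cls (P.stg q) n k q := by
  have h1 : P.del q ≤ 1 := (P.del_le q).trans (by
    rw [div_le_one (by positivity)]
    exact one_le_pow₀ (by norm_num))
  obtain ⟨k, hk1, hk2⟩ := exists_nat_pow_near_of_lt_one (P.del_pos q) h1
    (y := (1 / 2 : ℝ)) (by norm_num) (by norm_num)
  refine ⟨Nat.log 2 q, k, rfl, Nat.pow_log_le_self 2 (by omega), Nat.lt_pow_succ_log_self (by norm_num) q, ?_, ?_⟩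
  · rw [one_div_pow] at hk1
    exact hk1
  · rw [one_div_pow] at hk2
    exact hk2

end Par

end Pool.Agent.H46.LX
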