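import Pool.Agent.H46.LX.Def

/-!
# Module Tree (about 120 lines): ancestors, growth, compactness

Proofs. `anc`: induction on `m - j`: `a ∈ G K (m+1)` gives `a/2 ∈ G K m`, and
`a / 2^(m+1-j) = (a/2) / 2^(m-j)`.
`growth`: the elements `a < 2^(m+1)` with `a/2 ∈ G K m` are `2 x`, `2 x + 1`, `x ∈ G K m`
(all `x ∈ G K m` are `< 2^m`), so `card G (m+1) + card Bd m = 2 card G m`; induction: `Gr` and
nonempty at `m` give `card G (m+1) ≥ 2 (1-η) card G m > 0`, and `Gr` at `m+1` by chaining.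
`branch`: the sets `C m = ⋃ a ∈ G K m, [a/2^m, (a+1)/2^m]` are compact, nonempty and decreasing
(`[a/2^(m+1), (a+1)/2^(m+1)] ⊆ [(a/2)/2^m, (a/2+1)/2^m]`), so their intersection is nonempty
(`IsCompact.nonempty_iInter_of_sequence_nonempty_isCompact_isClosed`).
-/

set_option autoImplicit false

namespace Pool.Agent.H46.LX

private theorem Tree_mem_succ {K : ℕ → ℕ → Prop} {m a : ℕ} :
    a ∈ G K (m + 1) ↔ a < 2 ^ (m + 1) ∧ a / 2 ∈ G K m ∧ ¬ K (m + 1) a := by
  classical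
  rw [G, Finset.mem_filter, Finset.mem_range]

theorem anc {K : ℕ → ℕ → Prop} {m a : ℕ} (h : a ∈ G K m) {j : ℕ} (hj : j ≤ m) :
    a / 2 ^ (m - j) ∈ G K j := by
  induction m generalizing a with
  | zero =>
    obtain rfl : j = 0 := Nat.le_zero.1 hj
    simpa using h
  | succ m ih =>
    rcases Nat.lt_or_ge m j with h1 | h1
    · obtain rfl : j = m + 1 := le_antisymm hj h1
      rw [Nat.sub_self, pow_zero, Nat.div_one]
      exact h
    · have h2 := ih (Tree_mem_succ.1 h).2.1 h1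
      have h3 : m + 1 - j = (m - j) + 1 := by omega
      rw [h3, pow_succ', ← Nat.div_div_eq_div_mul]
      exact h2

theorem lt_of_mem {K : ℕ → ℕ → Prop} {m a : ℕ} (h : a ∈ G K m) : a < 2 ^ m := by
  cases m with
  | zero =>
    have h1 : a = 0 := by simpa [G] using h
    rw [h1]
    exact pow_pos two_pos 0
  | succ m => exact (Tree_mem_succ.1 h).1

open Classical in
private theorem Tree_card (K : ℕ → ℕ → Prop) (m : ℕ) :
    (G K (m + 1)).card + (Bd K m).card = 2 * (G K m).card := by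
  have hS : (Finset.range (2 ^ (m + 1))).filter (fun a => a / 2 ∈ G K m) =
      ((G K m) ×ˢ Finset.range 2).image (fun p : ℕ × ℕ => 2 * p.1 + p.2) := by
    ext a
    rw [Finset.mem_filter, Finset.mem_range, Finset.mem_image]
    constructor
    · rintro ⟨_, h2⟩
      refine ⟨(a / 2, a % 2), Finset.mem_product.2 ⟨h2, Finset.mem_range.2 (Nat.mod_lt _ two_pos)⟩, ?_⟩
      exact Nat.div_add_mod a 2
    · rintro ⟨⟨x, b⟩, h1, rfl⟩
      have h2 := (Finset.mem_product.1 h1).1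
      have h3 := Finset.mem_range.1 (Finset.mem_product.1 h1).2
      have h4 := lt_of_mem h2
      simp only at h2 h3 h4 ⊢
      have h5 : (2 * x + b) / 2 = x := by omega
      refine ⟨?_, ?_⟩
      · rw [pow_succ]
        omega
      · rw [h5]
        exact h2
  have hc : ((Finset.range (2 ^ (m + 1))).filter (fun a => a / 2 ∈ G K m)).card =
      2 * (G K m).card := by
    rw [hS, Finset.card_image_of_injOn, Finset.card_product, Finset.card_range, Nat.mul_comm]
    rintro ⟨x, b⟩ h1 ⟨y, c⟩ h2 h3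
    have h4 := Finset.mem_range.1 (Finset.mem_product.1 (Finset.mem_coe.1 h1)).2
    have h5 := Finset.mem_range.1 (Finset.mem_product.1 (Finset.mem_coe.1 h2)).2
    simp only at h3 h4 h5
    have h6 : x = y := by omega
    have h7 : b = c := by omega
    rw [h6, h7]
  have e1 : Bd K m = ((Finset.range (2 ^ (m + 1))).filter (fun a => a / 2 ∈ G K m)).filter
      (fun a => K (m + 1) a) := by
    rw [Bd, Finset.filter_filter]
  have e2 : G K (m + 1) = ((Finset.range (2 ^ (m + 1))).filter (fun a => a / 2 ∈ G K m)).filter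
      (fun a => ¬ K (m + 1) a) := by
    rw [G, Finset.filter_filter]
  rw [e1, e2, ← hc, Nat.add_comm]
  exact Finset.card_filter_add_card_filter_not _

theorem growth (K : ℕ → ℕ → Prop) (η : ℝ) (h0 : 0 < η) (h1 : η < 1 / 2)
    (h : ∀ m, Gr K η m → ((Bd K m).card : ℝ) ≤ 2 * η * (G K m).card) :
    ∀ m, Gr K η m ∧ (G K m).Nonempty := by
  intro m
  induction m with
  | zero =>
    refine ⟨fun j hj => ?_, ?_⟩
    · obtain rfl : j = 0 := Nat.le_zero.1 hj
      simp
    · rw [G]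
      exact Finset.singleton_nonempty 0
  | succ m ih =>
    obtain ⟨i1, i2⟩ := ih
    have hc : ((G K (m + 1)).card : ℝ) + (Bd K m).card = 2 * (G K m).card := by
      exact_mod_cast Tree_card K m
    have hb := h m i1
    have hstep : ((G K m).card : ℝ) * (2 * (1 - η)) ≤ (G K (m + 1)).card := by
      linarith
    have hpos : (0 : ℝ) < (G K m).card := by exact_mod_cast i2.card_pos
    have hf : (0 : ℝ) < 2 * (1 - η) := by linarith
    refine ⟨fun j hj => ?_, ?_⟩
    · rcases Nat.lt_or_ge m j with k1 | k1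
      · obtain rfl : j = m + 1 := le_antisymm hj k1
        simp
      · have k2 : m + 1 - j = (m - j) + 1 := by omega
        have k3 := mul_le_mul_of_nonneg_right (i1 j k1) hf.le
        rw [k2, pow_succ, ← mul_assoc]
        exact k3.trans hstep
    · rw [← Finset.card_pos]
      have k4 : (0 : ℝ) < (G K (m + 1)).card := (mul_pos hpos hf).trans_le hstep
      exact_mod_cast k4

theorem branch (K : ℕ → ℕ → Prop) (h : ∀ m, (G K m).Nonempty) :
    ∃ β : ℝ, 0 ≤ β ∧ β ≤ 1 ∧ ∀ m, ∃ a ∈ G K m, (a : ℝ) / 2 ^ m ≤ β ∧ β ≤ (a + 1) / 2 ^ m := by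
  have hcomp : ∀ m : ℕ, IsCompact (⋃ a ∈ G K m, Set.Icc ((a : ℝ) / 2 ^ m) (((a : ℝ) + 1) / 2 ^ m)) :=
    fun m => (G K m).isCompact_biUnion fun _ _ => isCompact_Icc
  have hdec : ∀ m : ℕ, (⋃ a ∈ G K (m + 1), Set.Icc ((a : ℝ) / 2 ^ (m + 1)) (((a : ℝ) + 1) / 2 ^ (m + 1))) ⊆
      ⋃ a ∈ G K m, Set.Icc ((a : ℝ) / 2 ^ m) (((a : ℝ) + 1) / 2 ^ m) := by
    intro m x hx
    rw [Set.mem_iUnion₂] at hx ⊢
    obtain ⟨a, ha, hx1, hx2⟩ := hx
    refine ⟨a / 2, (Tree_mem_succ.1 ha).2.1, ?_, ?_⟩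
    · refine le_trans ?_ hx1
      have k1 : 2 * (a / 2) ≤ a := by omega
      have k2 : (2 : ℝ) * ((a / 2 : ℕ) : ℝ) ≤ a := by exact_mod_cast k1
      rw [pow_succ, div_le_div_iff₀ (by positivity) (by positivity)]
      have k3 : (0 : ℝ) < 2 ^ m := by positivity
      nlinarith
    · refine le_trans hx2 ?_
      have k1 : a + 1 ≤ 2 * (a / 2 + 1) := by omega
      have k2 : (a : ℝ) + 1 ≤ 2 * (((a / 2 : ℕ) : ℝ) + 1) := by exact_mod_cast k1
      rw [pow_succ, div_le_div_iff₀ (by positivity) (by positivity)]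
      have k3 : (0 : ℝ) < 2 ^ m := by positivity
      nlinarith
  have hne : ∀ m : ℕ, (⋃ a ∈ G K m, Set.Icc ((a : ℝ) / 2 ^ m) (((a : ℝ) + 1) / 2 ^ m)).Nonempty := by
    intro m
    obtain ⟨a, ha⟩ := h m
    refine ⟨(a : ℝ) / 2 ^ m, Set.mem_iUnion₂.2 ⟨a, ha, le_refl _, ?_⟩⟩
    have k3 : (0 : ℝ) < 2 ^ m := by positivity
    exact div_le_div_of_nonneg_right (by linarith) k3.le
  obtain ⟨β, hβ⟩ := IsCompact.nonempty_iInter_of_sequence_nonempty_isCompact_isClosed
    (fun m : ℕ => ⋃ a ∈ G K m, Set.Icc ((a : ℝ) / 2 ^ m) (((a : ℝ) + 1) / 2 ^ m))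
    hdec hne (hcomp 0) (fun m => (hcomp m).isClosed)
  have hall : ∀ m, ∃ a ∈ G K m, (a : ℝ) / 2 ^ m ≤ β ∧ β ≤ (a + 1) / 2 ^ m := by
    intro m
    have h1 := Set.mem_iInter.1 hβ m
    rw [Set.mem_iUnion₂] at h1
    obtain ⟨a, ha, h2, h3⟩ := h1
    exact ⟨a, ha, h2, h3⟩
  obtain ⟨a, ha, h2, h3⟩ := hall 0
  have ha0 : a = 0 := by simpa [G] using ha
  subst ha0
  refine ⟨β, ?_, ?_, hall⟩
  · simpa using h2
  · simpa using h3

end Pool.Agent.H46.LX
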