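import Pool.Agent.H46.LX.Cls
import Pool.Agent.H46.LX.Tree

/-!
# Module Ext (about 60 lines): a surviving point satisfies the inequality

Proof. Let `j = stg q ≥ 1` (`stg_pos`), so `a ∈ G K j` gives `¬ K j a`, hence `¬ P.Kill j a`. With
`r = round (q β)`: `|r/q - a/2^j| > 4/2^j`, and `|β - a/2^j| ≤ 1/2^j`, so `|β - r/q| > 3/2^j` and
`nd(q β) = |q β - r| ≥ 3 q/2^j`. By `lt_lam` `2^j < 2 lam q/del q`, so
`nd(q β) PP q ≥ 3 q PP q/2^j = 3 lam q/2^j ≥ (3/2) del q`.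
-/

set_option autoImplicit false

namespace Pool.Agent.H46.LX

theorem surv (P : Par) (K : ℕ → ℕ → Prop) (hK : ∀ M a, P.Kill M a → K M a) {q : ℕ} (hq : 1 ≤ q)
    {a : ℕ} (ha : a ∈ G K (P.stg q)) (β : ℝ) (h1 : (a : ℝ) / 2 ^ P.stg q ≤ β)
    (h2 : β ≤ (a + 1) / 2 ^ P.stg q) : P.del q ≤ nd (q * β) * P.PP q := by
  have hj := P.stg_pos hq
  have hK' : ¬ K (P.stg q) a := by
    classical
    obtain ⟨m, hm⟩ := Nat.exists_eq_succ_of_ne_zero (show P.stg q ≠ 0 by omega)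
    rw [hm] at ha ⊢
    rw [Nat.succ_eq_add_one, G, Finset.mem_filter] at ha
    exact ha.2.2
  have hkill : ¬ P.Kill (P.stg q) a := fun h => hK' (hK _ _ h)
  have h3 : 4 / 2 ^ P.stg q < |((round ((q : ℝ) * β) : ℤ) : ℝ) / q - a / 2 ^ P.stg q| := by
    by_contra h
    exact hkill ⟨q, hq, rfl, round ((q : ℝ) * β), not_lt.1 h⟩
  have hl := P.lt_lam hq
  have hd := P.del_pos q
  have hP := P.PP_pos hq
  have hqp : (0 : ℝ) < q := by exact_mod_cast hq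
  generalize P.stg q = j at *
  have hT : (0 : ℝ) < 2 ^ j := by positivity
  have e4 : |β - a / 2 ^ j| ≤ 1 / 2 ^ j := by
    rw [abs_le]
    rw [add_div] at h2
    constructor
    · have : (0 : ℝ) < 1 / 2 ^ j := by positivity
      linarith
    · linarith
  have e5 : 3 / 2 ^ j ≤ |β - ((round ((q : ℝ) * β) : ℤ) : ℝ) / q| := by
    have t := abs_sub_abs_le_abs_sub (((round ((q : ℝ) * β) : ℤ) : ℝ) / q - a / 2 ^ j) (β - a / 2 ^ j)
    have e : (((round ((q : ℝ) * β) : ℤ) : ℝ) / q - a / 2 ^ j) - (β - a / 2 ^ j) =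
        -(β - ((round ((q : ℝ) * β) : ℤ) : ℝ) / q) := by ring
    rw [e, abs_neg] at t
    have e6 : (3 : ℝ) / 2 ^ j = 4 / 2 ^ j - 1 / 2 ^ j := by ring
    rw [e6]
    linarith
  have e7 : nd (q * β) = q * |β - ((round ((q : ℝ) * β) : ℤ) : ℝ) / q| := by
    unfold nd
    rw [← abs_of_pos hqp, ← abs_mul, abs_of_pos hqp]
    congr 1
    field_simp
  have e8 : (q : ℝ) * (3 / 2 ^ j) ≤ nd (q * β) := by
    rw [e7]
    exact mul_le_mul_of_nonneg_left e5 hqp.le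
  have e9 : (q : ℝ) * (3 / 2 ^ j) * P.PP q = 3 * P.lam q / 2 ^ j := by
    unfold Par.lam
    ring
  calc P.del q ≤ 3 * P.lam q / 2 ^ j := by
        rw [le_div_iff₀ hT]
        nlinarith [mul_pos hd hT]
    _ = (q : ℝ) * (3 / 2 ^ j) * P.PP q := e9.symm
    _ ≤ nd (q * β) * P.PP q := mul_le_mul_of_nonneg_right e8 hP.le

end Pool.Agent.H46.LX
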