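import Pool.Agent.H46.LX.Def

/-!
# Module Nine (about 60 lines): a point kills at most nine nodes

Proofs. `nine`: `|x - a/2^M| ≤ 4/2^M` is `|2^M x - a| ≤ 4`, an interval of length 8 holds at most 9
integers. `nine_mul`: choose for each `a ∈ A` a witness `f a`; the fibres of `f` on `A` have at most
9 elements by `nine`, the image has at most `B` elements by `hN` (`Finset.card_le_mul_card_image`).
-/

set_option autoImplicit false

namespace Pool.Agent.H46.LX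

theorem nine (M : ℕ) (x : ℝ) (A : Finset ℕ) (h : ∀ a ∈ A, |x - (a : ℝ) / 2 ^ M| ≤ 4 / 2 ^ M) :
    A.card ≤ 9 := by
  have h2 : (0 : ℝ) < 2 ^ M := by positivity
  have key : ∀ a ∈ A, |2 ^ M * x - (a : ℝ)| ≤ 4 := by
    intro a ha
    have h1 := h a ha
    rw [le_div_iff₀ h2] at h1
    have h3 : |x - (a : ℝ) / 2 ^ M| * 2 ^ M = |2 ^ M * x - (a : ℝ)| := by
      rw [← abs_of_pos h2, ← abs_mul, abs_of_pos h2]
      congr 1
      field_simp
    rwa [h3] at h1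
  have hsub : A.map ⟨fun a : ℕ => (a : ℤ), Nat.cast_injective⟩ ⊆
      Finset.Icc ⌈2 ^ M * x - 4⌉ ⌊2 ^ M * x + 4⌋ := by
    intro z hz
    rw [Finset.mem_map] at hz
    obtain ⟨a, ha, rfl⟩ := hz
    have h1 := abs_le.1 (key a ha)
    rw [Finset.mem_Icc]
    constructor
    · rw [Int.ceil_le]
      simp only [Function.Embedding.coeFn_mk, Int.cast_natCast]
      linarith
    · rw [Int.le_floor]
      simp only [Function.Embedding.coeFn_mk, Int.cast_natCast]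
      linarith
  have hcard := Finset.card_le_card hsub
  rw [Finset.card_map, Int.card_Icc] at hcard
  refine hcard.trans ?_
  have h3 : (⌊2 ^ M * x + 4⌋ : ℝ) ≤ 2 ^ M * x + 4 := Int.floor_le _
  have h4 : 2 ^ M * x - 4 ≤ (⌈2 ^ M * x - 4⌉ : ℝ) := Int.le_ceil _
  have h5 : (⌊2 ^ M * x + 4⌋ : ℤ) - ⌈2 ^ M * x - 4⌉ ≤ 8 := by
    have : ((⌊2 ^ M * x + 4⌋ - ⌈2 ^ M * x - 4⌉ : ℤ) : ℝ) ≤ (8 : ℤ) := by
      push_cast
      linarith
    exact_mod_cast this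
  omega

theorem nine_mul (M : ℕ) (A : Finset ℕ) (Q : ℕ × ℤ → Prop) (B : ℝ)
    (h : ∀ a ∈ A, ∃ x : ℕ × ℤ, Q x ∧ |(x.2 : ℝ) / x.1 - (a : ℝ) / 2 ^ M| ≤ 4 / 2 ^ M)
    (hN : ∀ S : Finset (ℕ × ℤ),
      (∀ x ∈ S, Q x ∧ ∃ a ∈ A, |(x.2 : ℝ) / x.1 - (a : ℝ) / 2 ^ M| ≤ 4 / 2 ^ M) →
        (S.card : ℝ) ≤ B) :
    (A.card : ℝ) ≤ 9 * B := by
  classical
  have h' : ∀ a : ℕ, ∃ x : ℕ × ℤ, a ∈ A →
      Q x ∧ |(x.2 : ℝ) / x.1 - (a : ℝ) / 2 ^ M| ≤ 4 / 2 ^ M := by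
    intro a
    by_cases ha : a ∈ A
    · obtain ⟨x, hx⟩ := h a ha
      exact ⟨x, fun _ => hx⟩
    · exact ⟨(0, 0), fun hh => absurd hh ha⟩
  choose f hf using h'
  have h1 : A.card ≤ 9 * (A.image f).card := by
    refine Finset.card_le_mul_card_image A 9 fun b _ => ?_
    refine nine M ((b.2 : ℝ) / b.1) _ fun a ha => ?_
    rw [Finset.mem_filter] at ha
    have h2 := (hf a ha.1).2
    rwa [ha.2] at h2
  have h2 : ((A.image f).card : ℝ) ≤ B := by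
    refine hN _ fun x hx => ?_
    rw [Finset.mem_image] at hx
    obtain ⟨a, ha, rfl⟩ := hx
    exact ⟨(hf a ha).1, a, ha, (hf a ha).2⟩
  have h3 : (A.card : ℝ) ≤ 9 * ((A.image f).card : ℝ) := by exact_mod_cast h1
  linarith

end Pool.Agent.H46.LX
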