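import Mathlib

/-!
# Limits of Littlewood's conjecture: definitions (MP_0ea415_nt)

PAPER. `‖x‖ = nd x`. For a badly approximable `α` (`q ‖q α‖ ≥ c` for all `q ≥ 1`), a 1-Lipschitz
function `φ` (this is `Pool.Agent.H19.LW` with `φ (log₂ q)` in the place of `θ log₂ q`),
`ε ∈ (0,1]` and a large `κ` put, for `q ≥ 1`,
`PP q = q ‖q α‖`, `lam q = q PP q`, `dd q = |φ (log₂ q) + log₂ ‖q α‖|`,
`del q = 2^(-κ) (1 + dd q)^(-(1+ε))`, `stg q = ⌈log₂ (lam q / del q)⌉`.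
In the dyadic tree of `[0,1]` (node `(m,a)` is `[a/2^m, (a+1)/2^m]`) the node `(m,a)` is killed by
`q` of stage `m` if some `r/q` has `|r/q - a/2^m| ≤ 4/2^m`. A `β` in a branch without killed nodes
has `q ‖q α‖ ‖q β‖ ≥ del q` for all `q ≥ 1`. Such branches exist, since the number of the surviving
nodes grows by the factor `2 (1-η)` at least.
-/

set_option autoImplicit false

namespace Pool.Agent.H46.LX

open Real

/-- the distance of `x` to the nearest integer -/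
noncomputable def nd (x : ℝ) : ℝ := |x - round x|

/-- the parameters: `α` badly approximable with constant `c`, the function `φ`, the exponent `1+ε`
and the constant `2^(-κ)` -/
structure Par where
  α : ℝ
  φ : ℝ → ℝ
  ε : ℝ
  c : ℝ
  κ : ℕ
  c0 : 0 < c
  bad : ∀ q : ℕ, 1 ≤ q → c ≤ q * nd (q * α)
  φl : ∀ x y, |φ x - φ y| ≤ |x - y|
  ε0 : 0 < ε
  ε1 : ε ≤ 1
  κc : 2 ≤ c * 2 ^ κ
  κ1 : 1 ≤ κ

namespace Par

variable (P : Par)

/-- `q ‖q α‖` -/
noncomputable def PP (q : ℕ) : ℝ := q * nd (q * P.α)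

/-- `q² ‖q α‖` -/
noncomputable def lam (q : ℕ) : ℝ := q * P.PP q

/-- `|φ (log₂ q) + log₂ ‖q α‖|` -/
noncomputable def dd (q : ℕ) : ℝ := |P.φ (logb 2 q) + logb 2 (nd (q * P.α))|

/-- `2^(-κ) (1 + dd q)^(-(1+ε))` -/
noncomputable def del (q : ℕ) : ℝ := (1 + P.dd q) ^ (-(1 + P.ε)) / 2 ^ P.κ

/-- the stage of `q`: `2^(stg q - 1) < lam q / del q ≤ 2^(stg q)` -/
noncomputable def stg (q : ℕ) : ℕ := ⌈logb 2 (P.lam q / P.del q)⌉₊

/-- `q` of stage `M` kills the node `(M,a)` -/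
def Kill (M a : ℕ) : Prop :=
  ∃ q : ℕ, 1 ≤ q ∧ P.stg q = M ∧ ∃ r : ℤ, |(r : ℝ) / q - a / 2 ^ M| ≤ 4 / 2 ^ M

/-- the class `(n,k)` of the `q` of stage `M` -/
structure Cls (M n k q : ℕ) : Prop where
  stg : P.stg q = M
  lo : 2 ^ n ≤ q
  hi : q < 2 ^ (n + 1)
  dlo : 1 / 2 ^ (k + 1) < P.del q
  dhi : P.del q ≤ 1 / 2 ^ k

/-- a `q` of the class `(n,k)` of stage `M` kills the node `(M,a)` -/
def KillC (M n k a : ℕ) : Prop :=
  ∃ q : ℕ, P.Cls M n k q ∧ ∃ r : ℤ, |(r : ℝ) / q - a / 2 ^ M| ≤ 4 / 2 ^ M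

/-- the bound for `‖q α‖` in a class -/
noncomputable def rho (M n k : ℕ) : ℝ := 2 ^ M / 2 ^ k / 4 ^ n

end Par

open Classical in
/-- the surviving nodes of level `m` of the dyadic tree, `K m a`: the node `(m,a)` is killed -/
noncomputable def G (K : ℕ → ℕ → Prop) : ℕ → Finset ℕ
  | 0 => {0}
  | m + 1 => (Finset.range (2 ^ (m + 1))).filter fun a => a / 2 ∈ G K m ∧ ¬ K (m + 1) a

open Classical in
/-- the killed children of the surviving nodes of level `m` -/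
noncomputable def Bd (K : ℕ → ℕ → Prop) (m : ℕ) : Finset ℕ :=
  (Finset.range (2 ^ (m + 1))).filter fun a => a / 2 ∈ G K m ∧ K (m + 1) a

/-- growth of the tree from every level `j ≤ m` to the level `m` -/
def Gr (K : ℕ → ℕ → Prop) (η : ℝ) (m : ℕ) : Prop :=
  ∀ j ≤ m, ((G K j).card : ℝ) * (2 * (1 - η)) ^ (m - j) ≤ (G K m).card

end Pool.Agent.H46.LX
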