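import Pool.Agent.H46.LX.Cls

/-!
# Module Est (about 110 lines): `del` and the stage of a short vector

Let `q` be in the class `(n,k)` of stage `M`, `X = 2^(n+1)`, `ρ = rho M n k`, `1 ≤ q₀`,
`u = log₂ (X/q₀) ≥ 0`, `v = log₂ (ρ/nd(q₀ α)) ≥ 0`, `w = u + v`. Proofs.
`del_ge`: `dd q₀ = |φ (log₂ X - u) + log₂ ρ - v| ≤ |φ (n+1) + M - k - 2n| + u + v ≤ dd q + 5 + w`
(`Cls.line`), so `1 + dd q₀ ≤ (1 + dd q) (6 + w)`,
`(1 + dd q₀)^(1+ε) ≤ (2^(k+1)/2^κ) (6+w)^2` (`Cls.dd_lt`, `ε ≤ 1`, `6 + w ≥ 1`), and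
`del q₀ = (1 + dd q₀)^(-(1+ε))/2^κ ≥ 1/(2^(k+1) (6+w)^2)`.
`stg_lt`: `lam q₀ = q₀² nd(q₀ α) = X² ρ 2^(-2u-v)`, `X² ρ = 4 2^M/2^k`, so
`lam q₀/del q₀ ≤ 8 2^M (6+w)^2 2^(-(2u+v)) ≤ 2^M/2`, its logarithm is `≤ M - 1`.
`num`: `(6+w)^2 ≤ 2^(w/4)` for `w ≥ 48` (`54^2 = 2916 ≤ 4096` and monotonicity, for example
`log 2/4 ≥ 2/(6+w)` for the derivative of the logarithms, or
`2^(w/8) ≥ 64 (1 + (w-48)/8 log 2) ≥ 6 + w`).
-/

set_option autoImplicit false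

namespace Pool.Agent.H46.LX

open Real

private lemma est_log_rho (M n k : ℕ) : logb 2 (Par.rho M n k) = (M : ℝ) - k - 2 * n := by
  have h2 : (0 : ℝ) < 2 := by norm_num
  have e4 : (4 : ℝ) ^ n = 2 ^ (2 * n) := by
    rw [pow_mul]
    norm_num
  unfold Par.rho
  rw [e4, Real.logb_div (by positivity) (by positivity), Real.logb_div (by positivity)
    (by positivity), Real.logb_pow, Real.logb_pow, Real.logb_pow, Real.logb_self_eq_one (by norm_num)]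
  push_cast
  ring

private lemma est_rho_pos (M n k : ℕ) : 0 < Par.rho M n k := by
  unfold Par.rho
  positivity

theorem num (w : ℝ) (hw : 48 ≤ w) : (6 + w) ^ 2 ≤ (2 : ℝ) ^ (w / 4) := by
  have hl : (0.69 : ℝ) ≤ log 2 := by
    have := Real.log_two_gt_d9
    linarith
  have h1 : (6 + w : ℝ) ≤ (2 : ℝ) ^ (w / 8) := by
    have e : w / 8 = (6 : ℕ) + (w - 48) / 8 := by
      push_cast
      ring
    rw [e, Real.rpow_add (by norm_num), Real.rpow_natCast]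
    have h3 : 1 + log 2 * ((w - 48) / 8) ≤ (2 : ℝ) ^ ((w - 48) / 8) := by
      rw [Real.rpow_def_of_pos (by norm_num)]
      linarith [Real.add_one_le_exp (log 2 * ((w - 48) / 8))]
    have h4 : 0.69 * ((w - 48) / 8) ≤ log 2 * ((w - 48) / 8) :=
      mul_le_mul_of_nonneg_right hl (by linarith)
    have h5 : (2 : ℝ) ^ 6 = 64 := by norm_num
    rw [h5]
    linarith
  calc (6 + w) ^ 2 ≤ ((2 : ℝ) ^ (w / 8)) ^ 2 := pow_le_pow_left₀ (by linarith) h1 2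
    _ = (2 : ℝ) ^ (w / 4) := by
      rw [← Real.rpow_natCast, ← Real.rpow_mul (by norm_num)]
      congr 1
      push_cast
      ring

namespace Par

variable {P : Par} {M n k q : ℕ}

theorem Cls.del_ge (h : P.Cls M n k q) {q₀ : ℕ} (h1 : 1 ≤ q₀) (u v : ℝ)
    (hu : u = logb 2 (2 ^ (n + 1) / q₀)) (hv : v = logb 2 (rho M n k / nd (q₀ * P.α)))
    (hu0 : 0 ≤ u) (hv0 : 0 ≤ v) : 1 / (2 ^ (k + 1) * (6 + (u + v)) ^ 2) ≤ P.del q₀ := by
  have hq0 : (0 : ℝ) < q₀ := by exact_mod_cast h1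
  have hnd := P.nd_pos h1
  have hrho := est_rho_pos M n k
  have hdq := P.dd_nonneg q
  have hdq0 := P.dd_nonneg q₀
  -- the logarithms
  have e1 : logb 2 (q₀ : ℝ) = (n : ℝ) + 1 - u := by
    rw [hu, Real.logb_div (by positivity) hq0.ne', Real.logb_pow,
      Real.logb_self_eq_one (by norm_num)]
    push_cast
    ring
  have e2 : logb 2 (nd (q₀ * P.α)) = (M : ℝ) - k - 2 * n - v := by
    rw [hv, Real.logb_div hrho.ne' hnd.ne', est_log_rho]
    ring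
  have e3 : P.dd q₀ ≤ P.dd q + 5 + (u + v) := by
    have e4 : P.dd q₀ = |(P.φ (n + 1) + M - k - 2 * n) -
        ((P.φ (n + 1) - P.φ (n + 1 - u)) + v)| := by
      unfold dd
      rw [e1, e2]
      congr 1
      ring
    rw [e4]
    have h5 : |P.φ (n + 1) - P.φ (n + 1 - u)| ≤ u := by
      refine (P.φl _ _).trans (le_of_eq ?_)
      rw [sub_sub_cancel, abs_of_nonneg hu0]
    have h7 : |(P.φ (n + 1) - P.φ (n + 1 - u)) + v| ≤ u + v := by
      refine (abs_add_le _ _).trans ?_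
      rw [abs_of_nonneg hv0]
      linarith
    have h8 := h.line
    calc |(P.φ (n + 1) + M - k - 2 * n) - ((P.φ (n + 1) - P.φ (n + 1 - u)) + v)|
        ≤ |P.φ (n + 1) + M - k - 2 * n| + |(P.φ (n + 1) - P.φ (n + 1 - u)) + v| := abs_sub _ _
      _ ≤ _ := by linarith
  have e5 : 1 + P.dd q₀ ≤ (1 + P.dd q) * (6 + (u + v)) := by
    have : 0 ≤ P.dd q * (5 + (u + v)) := mul_nonneg hdq (by linarith)
    linarith [show (1 + P.dd q) * (6 + (u + v)) =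
      1 + (P.dd q + 5 + (u + v)) + P.dd q * (5 + (u + v)) by ring]
  have hε := P.ε0
  have hε1 := P.ε1
  have e6 : (1 + P.dd q₀) ^ (1 + P.ε) ≤ 2 ^ (k + 1) / 2 ^ P.κ * (6 + (u + v)) ^ 2 := by
    have h6 : (6 + (u + v)) ^ (1 + P.ε) ≤ (6 + (u + v)) ^ 2 := by
      rw [← Real.rpow_natCast (6 + (u + v)) 2]
      refine Real.rpow_le_rpow_of_exponent_le (by linarith) ?_
      push_cast
      linarith
    calc (1 + P.dd q₀) ^ (1 + P.ε) ≤ ((1 + P.dd q) * (6 + (u + v))) ^ (1 + P.ε) :=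
          Real.rpow_le_rpow (by linarith) e5 (by linarith)
      _ = (1 + P.dd q) ^ (1 + P.ε) * (6 + (u + v)) ^ (1 + P.ε) :=
          Real.mul_rpow (by linarith) (by linarith)
      _ ≤ 2 ^ (k + 1) / 2 ^ P.κ * (6 + (u + v)) ^ 2 :=
          mul_le_mul h.dd_lt.le h6 (Real.rpow_nonneg (by linarith) _) (by positivity)
  have hpos : 0 < (1 + P.dd q₀) ^ (1 + P.ε) := Real.rpow_pos_of_pos (by linarith) _
  have e7 : P.del q₀ = 1 / ((1 + P.dd q₀) ^ (1 + P.ε) * 2 ^ P.κ) := by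
    unfold del
    rw [Real.rpow_neg (by linarith)]
    field_simp
  rw [e7]
  refine one_div_le_one_div_of_le (mul_pos hpos (by positivity)) ?_
  calc (1 + P.dd q₀) ^ (1 + P.ε) * 2 ^ P.κ
      ≤ 2 ^ (k + 1) / 2 ^ P.κ * (6 + (u + v)) ^ 2 * 2 ^ P.κ :=
        mul_le_mul_of_nonneg_right e6 (by positivity)
    _ = 2 ^ (k + 1) * (6 + (u + v)) ^ 2 := by field_simp

theorem Cls.stg_lt (h : P.Cls M n k q) {q₀ : ℕ} (h1 : 1 ≤ q₀) (u v : ℝ)
    (hu : u = logb 2 (2 ^ (n + 1) / q₀)) (hv : v = logb 2 (rho M n k / nd (q₀ * P.α)))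
    (hu0 : 0 ≤ u) (hv0 : 0 ≤ v) (hw : 16 * (6 + (u + v)) ^ 2 ≤ (2 : ℝ) ^ (2 * u + v)) :
    P.stg q₀ < M := by
  have hq0 : (0 : ℝ) < q₀ := by exact_mod_cast h1
  have hnd := P.nd_pos h1
  have hrho := est_rho_pos M n k
  have hM : 1 ≤ M := by
    have := P.stg_pos h.q1
    rwa [h.stg] at this
  have hdel := h.del_ge h1 u v hu hv hu0 hv0
  have hdp := P.del_pos q₀
  have hlp := P.lam_pos h1
  have e1 : (q₀ : ℝ) = 2 ^ (n + 1) / 2 ^ u := by
    have h3 : (2 : ℝ) ^ u = 2 ^ (n + 1) / q₀ := by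
      rw [hu, Real.rpow_logb (by norm_num) (by norm_num) (by positivity)]
    rw [h3]
    field_simp
  have e2 : nd (q₀ * P.α) = rho M n k / 2 ^ v := by
    have h3 : (2 : ℝ) ^ v = rho M n k / nd (q₀ * P.α) := by
      rw [hv, Real.rpow_logb (by norm_num) (by norm_num) (by positivity)]
    rw [h3]
    field_simp
  have h2u : (0 : ℝ) < 2 ^ u := Real.rpow_pos_of_pos (by norm_num) _
  have h2v : (0 : ℝ) < 2 ^ v := Real.rpow_pos_of_pos (by norm_num) _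
  have e3 : (2 : ℝ) ^ (2 * u + v) = 2 ^ u * 2 ^ u * 2 ^ v := by
    rw [Real.rpow_add (by norm_num), two_mul, Real.rpow_add (by norm_num)]
  have e4 : P.lam q₀ = 4 * 2 ^ M / 2 ^ k / 2 ^ (2 * u + v) := by
    have h3 : P.lam q₀ = (q₀ : ℝ) * (q₀ * nd (q₀ * P.α)) := rfl
    rw [h3, e2]
    have h4 : (q₀ : ℝ) * (q₀ * (rho M n k / 2 ^ v)) = (q₀ : ℝ) * q₀ * rho M n k / 2 ^ v := by ring
    rw [h4, e1, e3]
    unfold rho
    have h5 : (4 : ℝ) ^ n = 2 ^ n * 2 ^ n := by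
      rw [← mul_pow]
      norm_num
    rw [h5, pow_succ]
    field_simp
    norm_num
  have hw0 : 0 < (6 + (u + v)) ^ 2 := pow_pos (by linarith) 2
  have e5 : P.lam q₀ / P.del q₀ ≤ 2 ^ (M - 1) := by
    rw [div_le_iff₀ hdp]
    have h5 : (2 : ℝ) ^ M = 2 ^ (M - 1) * 2 := by
      rw [← pow_succ]
      congr 1
      omega
    have h6 : 0 < (2 : ℝ) ^ (2 * u + v) := Real.rpow_pos_of_pos (by norm_num) _
    have h7 : (0 : ℝ) < 2 ^ (M - 1) := by positivity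
    calc P.lam q₀ = 4 * 2 ^ M / 2 ^ k / 2 ^ (2 * u + v) := e4
      _ ≤ 4 * 2 ^ M / 2 ^ k / (16 * (6 + (u + v)) ^ 2) := by
          exact div_le_div_of_nonneg_left (by positivity) (by positivity) hw
      _ = 2 ^ (M - 1) * (1 / (2 ^ (k + 1) * (6 + (u + v)) ^ 2)) := by
          have h8 : (2 : ℝ) ^ (k + 1) = 2 ^ k * 2 := pow_succ _ _
          rw [h5, h8]
          field_simp
          norm_num
      _ ≤ 2 ^ (M - 1) * P.del q₀ := mul_le_mul_of_nonneg_left hdel h7.le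
  have e6 : P.stg q₀ ≤ M - 1 := by
    show ⌈logb 2 (P.lam q₀ / P.del q₀)⌉₊ ≤ M - 1
    rw [Nat.ceil_le]
    calc logb 2 (P.lam q₀ / P.del q₀) ≤ logb 2 (2 ^ (M - 1)) :=
          Real.logb_le_logb_of_le (by norm_num) (div_pos hlp hdp) e5
      _ = ((M - 1 : ℕ) : ℝ) := by
          rw [Real.logb_pow, Real.logb_self_eq_one (by norm_num), mul_one]
  omega

end Par

end Pool.Agent.H46.LX
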