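import Pool.Agent.H46.LX.Main
import Pool.Agent.H46.LX.DimH
import Pool.Agent.H46.LM.MinA

/-!
# Module Fin: countable sets of numbers and of 1-Lipschitz functions

`A × Φ` is countable: enumerate it by `i ↦ (α i, φ i)`, choose `c i` by `hbad`, and apply `dim_one`
and `main_seq` to the functions `x ↦ φ i (x log 2) / log 2`, which are 1-Lipschitz. `main_seq` has
exponents at most 1, so it is used for `min ε 1`. `log₂` is changed to `log` by
`1 + y / log 2 ≤ (1 + y) / log 2`. `limits_both` adds the form with the minimum: it follows from the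
bounds for `φ = 0` and `φ = id`.
-/

set_option autoImplicit false

namespace Pool.Agent.H46.LX

private theorem Fin_cmp (y ε ε' : ℝ) (ha : 0 ≤ y) (hε : 0 < ε) (h1 : ε' ≤ ε) :
    (1 / Real.log 2) ^ (-(1 + ε)) * (1 + y) ^ (-(1 + ε)) ≤
      (1 + y / Real.log 2) ^ (-(1 + ε')) := by
  have hl : 0 < Real.log 2 := Real.log_pos (by norm_num)
  have hl1 : Real.log 2 ≤ 1 := by
    have h := Real.log_two_lt_d9
    linarith
  have hd : 0 ≤ y / Real.log 2 := div_nonneg ha hl.le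
  have hinv : 1 ≤ 1 / Real.log 2 := by
    rw [le_div_iff₀ hl]
    linarith
  have e1 : (1 / Real.log 2) ^ (-(1 + ε)) * (1 + y) ^ (-(1 + ε)) =
      ((1 / Real.log 2) * (1 + y)) ^ (-(1 + ε)) := by
    rw [Real.mul_rpow (by linarith) (by linarith)]
  rw [e1]
  have hle : 1 + y / Real.log 2 ≤ (1 / Real.log 2) * (1 + y) := by
    have : (1 / Real.log 2) * (1 + y) = 1 / Real.log 2 + y / Real.log 2 := by
      ring
    rw [this]
    linarith
  calc ((1 / Real.log 2) * (1 + y)) ^ (-(1 + ε))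
      ≤ (1 + y / Real.log 2) ^ (-(1 + ε)) :=
        Real.rpow_le_rpow_of_nonpos (by linarith) hle (by linarith)
    _ ≤ (1 + y / Real.log 2) ^ (-(1 + ε')) :=
        Real.rpow_le_rpow_of_exponent_le (by linarith) (by linarith)

theorem limits (A : Set ℝ) (Φ : Set (ℝ → ℝ)) (hA : A.Countable) (hΦ : Φ.Countable)
    (hlip : ∀ φ ∈ Φ, ∀ x y : ℝ, |φ x - φ y| ≤ |x - y|)
    (hbad : ∀ α ∈ A, ∃ c > 0, ∀ q : ℕ, 1 ≤ q → c ≤ q * |q * α - round (q * α)|) (ε : ℝ)
    (hε : 0 < ε) :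
    dimH {β : ℝ | ∀ α ∈ A, ∀ φ ∈ Φ, ∃ c > 0, ∀ q : ℕ, 1 ≤ q →
        c * (1 + |φ (Real.log q) + Real.log (|q * α - round (q * α)|)|) ^ (-(1 + ε)) ≤
          q * |q * α - round (q * α)| * |q * β - round (q * β)|} = 1 := by
  rcases (A ×ˢ Φ).eq_empty_or_nonempty with he | hne
  · have hS : {β : ℝ | ∀ α ∈ A, ∀ φ ∈ Φ, ∃ c > 0, ∀ q : ℕ, 1 ≤ q →
        c * (1 + |φ (Real.log q) + Real.log (|q * α - round (q * α)|)|) ^ (-(1 + ε)) ≤
          q * |q * α - round (q * α)| * |q * β - round (q * β)|} = Set.univ := by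
      ext β
      refine ⟨fun _ => Set.mem_univ _, fun _ => ?_⟩
      intro α ha φ ht
      exact absurd (show (α, φ) ∈ A ×ˢ Φ from ⟨ha, ht⟩) (by rw [he]; exact Set.notMem_empty _)
    rw [hS]
    exact Real.dimH_univ
  obtain ⟨f, hf⟩ := (hA.prod hΦ).exists_eq_range hne
  have hmem : ∀ i, f i ∈ A ×ˢ Φ := fun i => by
    rw [hf]
    exact Set.mem_range_self i
  have hbad' : ∀ i, ∃ c > 0, ∀ q : ℕ, 1 ≤ q →
      c ≤ q * |q * (f i).1 - round (q * (f i).1)| := fun i => hbad _ (hmem i).1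
  choose c hc0 hc using hbad'
  have hl : 0 < Real.log 2 := Real.log_pos (by norm_num)
  have hlip' : ∀ (i : ℕ) (x y : ℝ), |(f i).2 (x * Real.log 2) / Real.log 2 -
      (f i).2 (y * Real.log 2) / Real.log 2| ≤ |x - y| := by
    intro i x y
    rw [← sub_div, abs_div, abs_of_pos hl, div_le_iff₀ hl]
    refine (hlip _ (hmem i).2 _ _).trans (le_of_eq ?_)
    rw [← sub_mul, abs_mul, abs_of_pos hl]
  have hε' : 0 < min ε 1 := lt_min hε one_pos
  apply dim_one
  intro g g0 g2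
  obtain ⟨ζ, hζ, h⟩ := main_seq (min ε 1) hε' (min_le_right _ _) (fun i => (f i).1) c
    (fun i x => (f i).2 (x * Real.log 2) / Real.log 2) hc0 hc hlip' g g0 g2
  refine ⟨ζ, hζ, fun E hE0 hE => ?_⟩
  obtain ⟨β, h1, h2, h3, h4⟩ := h E hE0 hE
  refine ⟨β, ?_, h2, h3, h4⟩
  intro α ha φ ht
  have hm : (α, φ) ∈ Set.range f := by
    rw [← hf]
    exact ⟨ha, ht⟩
  obtain ⟨i, hi⟩ := hm
  have hi1 : (f i).1 = α := by rw [hi]
  have hi2 : (f i).2 = φ := by rw [hi]
  obtain ⟨κ, hκ⟩ := h1 i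
  have hpow : (0 : ℝ) < 2 ^ κ := by positivity
  refine ⟨(1 / Real.log 2) ^ (-(1 + ε)) / 2 ^ κ,
    div_pos (Real.rpow_pos_of_pos (by positivity) _) hpow, fun q hq => ?_⟩
  have hq1 := hκ q hq
  simp only [hi1, hi2] at hq1
  have hlog : φ (Real.logb 2 q * Real.log 2) / Real.log 2 + Real.logb 2 (nd (q * α)) =
      (φ (Real.log q) + Real.log |q * α - round (q * α)|) / Real.log 2 := by
    have e1 : Real.logb 2 q * Real.log 2 = Real.log q := div_mul_cancel₀ _ hl.ne'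
    rw [e1]
    show φ (Real.log q) / Real.log 2 + Real.log |q * α - round (q * α)| / Real.log 2 = _
    ring
  have habs : |φ (Real.logb 2 q * Real.log 2) / Real.log 2 + Real.logb 2 (nd (q * α))| =
      |φ (Real.log q) + Real.log (|q * α - round (q * α)|)| / Real.log 2 := by
    rw [hlog, abs_div, abs_of_pos hl]
  rw [habs] at hq1
  have hcmp := Fin_cmp |φ (Real.log q) + Real.log (|q * α - round (q * α)|)| ε (min ε 1)
    (abs_nonneg _) hε (min_le_left _ _)
  have hfin : (1 / Real.log 2) ^ (-(1 + ε)) / 2 ^ κ *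
      (1 + |φ (Real.log q) + Real.log (|q * α - round (q * α)|)|) ^ (-(1 + ε)) ≤
      (1 + |φ (Real.log q) + Real.log (|q * α - round (q * α)|)| / Real.log 2) ^
        (-(1 + min ε 1)) / 2 ^ κ := by
    rw [div_mul_eq_mul_div]
    exact div_le_div_of_nonneg_right hcmp hpow.le
  calc _ ≤ _ := hfin
    _ ≤ nd (q * β) * (q * nd (q * α)) := hq1
    _ = q * |q * α - round (q * α)| * |q * β - round (q * β)| := by
        simp only [nd]
        ring

private theorem Fin_mul {ε c P X : ℝ} (hX : 0 ≤ X) (h : c * (1 + X) ^ (-(1 + ε)) ≤ P) :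
    c ≤ P * (1 + X) ^ (1 + ε) := by
  have h0 : (0 : ℝ) < 1 + X := by linarith
  have h1 : 0 < (1 + X) ^ (1 + ε) := Real.rpow_pos_of_pos h0 _
  have h2 := mul_le_mul_of_nonneg_right h h1.le
  rwa [mul_assoc, ← Real.rpow_add h0, neg_add_cancel, Real.rpow_zero, mul_one] at h2

theorem limits_both (A : Set ℝ) (hA : A.Countable)
    (hbad : ∀ α ∈ A, ∃ c > 0, ∀ q : ℕ, 1 ≤ q → c ≤ q * |q * α - round (q * α)|)
    (Φ : Set (ℝ → ℝ)) (hΦ : Φ.Countable) (hlip : ∀ φ ∈ Φ, ∀ x y : ℝ, |φ x - φ y| ≤ |x - y|)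
    (ε : ℝ) (hε : 0 < ε) :
    dimH {β : ℝ | ∀ α ∈ A,
      (∀ φ ∈ Φ, ∃ c > 0, ∀ q : ℕ, 1 ≤ q →
        c * (1 + |φ (Real.log q) + Real.log (|q * α - round (q * α)|)|) ^ (-(1 + ε)) ≤
          q * |q * α - round (q * α)| * |q * β - round (q * β)|) ∧
      ∃ c > 0, ∀ q : ℕ, 1 ≤ q →
        c ≤ q * |q * α - round (q * α)| * |q * β - round (q * β)| *
          Real.log (2 + min (q * |q * α - round (q * α)|) (q * |q * β - round (q * β)|)) ^
            (1 + ε)} = 1 := by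
  refine le_antisymm ?_ ?_
  · calc _ ≤ dimH (Set.univ : Set ℝ) := dimH_mono (Set.subset_univ _)
      _ = 1 := Real.dimH_univ
  · have hc : (Φ ∪ {fun _ => 0, fun x => x}).Countable :=
      hΦ.union (Set.Countable.insert _ (Set.countable_singleton _))
    have hl : ∀ φ ∈ Φ ∪ {fun _ => 0, fun x => x}, ∀ x y : ℝ, |φ x - φ y| ≤ |x - y| := by
      rintro φ (h | h | h) x y
      · exact hlip φ h x y
      · rw [h]
        simp
      · rw [Set.mem_singleton_iff] at h
        rw [h]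
    rw [← limits A (Φ ∪ {fun _ => 0, fun x => x}) hA hc hl hbad ε hε]
    refine dimH_mono fun β hβ α hα => ⟨fun φ hφ => hβ α hα φ (Or.inl hφ), ?_⟩
    obtain ⟨κ, hκ, hb⟩ := hbad α hα
    obtain ⟨c0, hc0, e0⟩ := hβ α hα (fun _ => 0) (Or.inr (Or.inl rfl))
    obtain ⟨c1, hc1, e1⟩ := hβ α hα (fun x => x) (Or.inr (Or.inr rfl))
    have hκ' : 0 < κ := hκ
    have hc0' : 0 < c0 := hc0
    have hc1' : 0 < c1 := hc1
    obtain ⟨c, hc, h⟩ := Pool.Agent.H46.LM.convert_min hε hκ' (lt_min hc0' hc1')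
    refine ⟨c, hc, fun q hq => ?_⟩
    have hq1 : (1 : ℝ) ≤ q := by exact_mod_cast hq
    have hq0 : (0 : ℝ) < q := by linarith
    have hbq := hb q hq
    have hs0 : 0 ≤ |q * α - round (q * α)| := abs_nonneg _
    have hs : 0 < |q * α - round (q * α)| := by
      rcases hs0.lt_or_eq with h1 | h1
      · exact h1
      · rw [← h1, mul_zero] at hbq
        exact absurd hbq (not_le.mpr hκ')
    have hs1 : |q * α - round (q * α)| ≤ 1 := by
      have := abs_sub_round ((q : ℝ) * α)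
      linarith
    refine h q _ _ hq1 hs hs1 (abs_nonneg _) hbq ?_ ?_
    · refine (min_le_left _ _).trans (Fin_mul (abs_nonneg _) ?_)
      have := e0 q hq
      simpa only [zero_add] using this
    · refine (min_le_right _ _).trans (Fin_mul (abs_nonneg _) ?_)
      have := e1 q hq
      rwa [← Real.log_mul hq0.ne' hs.ne'] at this

end Pool.Agent.H46.LX
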