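import Pool.Agent.H46.LX.Cls

/-!
# Module Num (about 160 lines): the number of the classes and the sum over the classes

Proofs. `card_n`: for `n ∈ T` there is a `q` in the class `(n,k)`; `Cls.line` and `Cls.dd_lt` give
`|φ (n+1) + M - k - 2n| ≤ dd q + 5 = (1 + dd q) + 4 ≤ D`, `D = 2^((k+1-κ)/(1+ε)) + 4`. The function
`n ↦ 2 n - φ (n+1) - (M - k)` grows by `1` at least in every step, so `T` lies in an interval of length `2 D`:
`card T ≤ 2 D + 1 ≤ 4 2^((k-κ)/(1+ε)) + 9 ≤ 13 2^((k-κ)/(1+ε))` (`κ ≤ k` by `Cls.κ_le`; if `T` is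
empty nothing is to be shown).
`term`: with `b = m+1-5k`: `2^(m+1)/2^k/2^b/2^(m-b) = 2/2^k` and `m - b ≤ 5 k - 1` (`k ≥ 1`), so the
term of the class is `≤ 18 C 2^(-k) (1/(1-η))^(5k)`.
`sum_le`: group by `k`: `∑_(k ≥ κ) 13 2^((k-κ)/(1+ε)) 18 C 2^(-k) (1/(1-η))^(5k)`; with
`(1/(1-η))^5 ≤ 2^(ε/(2(1+ε))) ≤ 2^(1/4)` and `x = k - κ` this is at most
`234 C 2^(-κ) 2^(κ/4) ∑_x (2^(1/(1+ε) - 1 + ε/(2(1+ε))))^x
 = 234 C 2^(-3κ/4) ∑_x (2^(-ε/(2(1+ε))))^x ≤ 234 C 2^(-κ/2)/(1 - 2^(-ε/(2(1+ε))))`.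
-/

set_option autoImplicit false

namespace Pool.Agent.H46.LX

open Real

theorem card_n (P : Par) (M k : ℕ) (T : Finset ℕ) (hT : ∀ n ∈ T, ∃ q, P.Cls M n k q) :
    (T.card : ℝ) ≤ 13 * (2 : ℝ) ^ (((k : ℝ) - P.κ) / (1 + P.ε)) := by
  set A : ℝ := (2 : ℝ) ^ (((k : ℝ) - P.κ) / (1 + P.ε)) with hA
  have hA0 : 0 < A := Real.rpow_pos_of_pos (by norm_num) _
  rcases T.eq_empty_or_nonempty with rfl | hne
  · simp only [Finset.card_empty, Nat.cast_zero]
    positivity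
  have he := P.ε0
  have hb : ∀ n ∈ T, |P.φ (n + 1) + M - k - 2 * n| ≤ 2 * A + 4 := by
    intro n hn
    obtain ⟨q, hq⟩ := hT n hn
    have h1 := hq.line
    have h2 := hq.dd_lt
    have h0 := P.dd_nonneg q
    have h3 : (1 + P.dd q) ≤ 2 * A := by
      have h4 : (2 : ℝ) ^ (k + 1) / 2 ^ P.κ = (2 : ℝ) ^ ((k : ℝ) + 1 - P.κ) := by
        rw [Real.rpow_sub (by norm_num), Real.rpow_natCast, ← Real.rpow_natCast 2 (k + 1)]
        push_cast
        rfl
      have h5 : 1 + P.dd q = ((1 + P.dd q) ^ (1 + P.ε)) ^ (1 / (1 + P.ε)) := by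
        rw [← Real.rpow_mul (by linarith), mul_one_div_cancel (by linarith), Real.rpow_one]
      rw [h5]
      calc ((1 + P.dd q) ^ (1 + P.ε)) ^ (1 / (1 + P.ε))
          ≤ ((2 : ℝ) ^ ((k : ℝ) + 1 - P.κ)) ^ (1 / (1 + P.ε)) := by
            rw [← h4]
            exact Real.rpow_le_rpow (Real.rpow_nonneg (by linarith) _) h2.le (by positivity)
        _ = (2 : ℝ) ^ (((k : ℝ) - P.κ) / (1 + P.ε) + 1 / (1 + P.ε)) := by
            rw [← Real.rpow_mul (by norm_num)]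
            congr 1
            field_simp
            ring
        _ = A * 2 ^ (1 / (1 + P.ε)) := by
            rw [Real.rpow_add (by norm_num)]
        _ ≤ A * 2 ^ (1 : ℝ) := by
            refine mul_le_mul_of_nonneg_left ?_ hA0.le
            refine Real.rpow_le_rpow_of_exponent_le (by norm_num) ?_
            rw [div_le_one (by linarith)]
            linarith
        _ = 2 * A := by rw [Real.rpow_one]; ring
    linarith
  have hA1 : 1 ≤ A := by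
    obtain ⟨n, hn⟩ := hne
    obtain ⟨q, hq⟩ := hT n hn
    have h1 : (P.κ : ℝ) ≤ k := by exact_mod_cast hq.κ_le
    exact Real.one_le_rpow (by norm_num) (div_nonneg (by linarith) (by linarith))
  have hmin := hb _ (T.min'_mem hne)
  have hmax := hb _ (T.max'_mem hne)
  have hle : (T.min' hne : ℝ) ≤ T.max' hne := by exact_mod_cast T.min'_le_max' hne
  have hcard : (T.card : ℝ) ≤ T.max' hne - T.min' hne + 1 := by
    have h1 : T ⊆ Finset.Icc (T.min' hne) (T.max' hne) := fun n hn =>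
      Finset.mem_Icc.2 ⟨T.min'_le n hn, T.le_max' n hn⟩
    have h2 := Finset.card_le_card h1
    rw [Nat.card_Icc] at h2
    have h3 : T.card + T.min' hne ≤ T.max' hne + 1 := by
      have h4 : T.min' hne ≤ T.max' hne := T.min'_le_max' hne
      omega
    have h5 : (T.card : ℝ) + T.min' hne ≤ T.max' hne + 1 := by exact_mod_cast h3
    linarith
  rw [abs_le] at hmin hmax
  have hd : (T.max' hne : ℝ) - T.min' hne ≤ 2 * (2 * A + 4) := by
    have h1 := (abs_le.1 (P.φl ((T.max' hne : ℝ) + 1) ((T.min' hne : ℝ) + 1))).2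
    have h2 : |((T.max' hne : ℝ) + 1) - ((T.min' hne : ℝ) + 1)| =
        (T.max' hne : ℝ) - T.min' hne := by
      rw [add_sub_add_right_eq_sub, abs_of_nonneg (by linarith)]
    rw [h2] at h1
    linarith [hmin.2, hmax.1]
  linarith

/-- the contribution of a class `(n,k)` at the stage `m+1`, divided by `C` -/
noncomputable def tm (η : ℝ) (m k : ℕ) : ℝ :=
  9 * (2 ^ (m + 1) / 2 ^ k / 2 ^ (m + 1 - 5 * k)) / (2 * (1 - η)) ^ (m - (m + 1 - 5 * k))

theorem tm_le (η : ℝ) (h0 : 0 < η) (h1 : η < 1 / 2) (m k : ℕ) (hk : 1 ≤ k) :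
    tm η m k ≤ 18 / 2 ^ k * (1 / (1 - η)) ^ (5 * k) := by
  unfold tm
  obtain ⟨b, hb⟩ : ∃ b, b = m + 1 - 5 * k := ⟨_, rfl⟩
  obtain ⟨e, hee⟩ : ∃ e, e = m - b := ⟨_, rfl⟩
  have h2 : m + 1 = b + e + 1 := by omega
  have h3 : e ≤ 5 * k := by omega
  have h4 : (0 : ℝ) < 1 - η := by linarith
  rw [← hb, ← hee, h2, mul_pow, pow_succ, pow_add]
  have h5 : (9 : ℝ) * (2 ^ b * 2 ^ e * 2 / 2 ^ k / 2 ^ b) / (2 ^ e * (1 - η) ^ e) =
      18 / 2 ^ k * (1 / (1 - η)) ^ e := by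
    rw [one_div, inv_pow]
    field_simp
    norm_num
  rw [h5]
  refine mul_le_mul_of_nonneg_left ?_ (by positivity)
  refine pow_le_pow_right₀ ?_ h3
  rw [le_div_iff₀ h4]
  linarith

theorem sum_le (P : Par) (η : ℝ) (h0 : 0 < η) (h1 : η < 1 / 2)
    (hη : (1 / (1 - η)) ^ 5 ≤ (2 : ℝ) ^ (P.ε / (2 * (1 + P.ε)))) (m : ℕ) (F : Finset (ℕ × ℕ))
    (hF : ∀ x ∈ F, ∃ q, P.Cls (m + 1) x.1 x.2 q) :
    ∑ x ∈ F, tm η m x.2 ≤
      234 / (1 - (2 : ℝ) ^ (-(P.ε / (2 * (1 + P.ε))))) * (2 : ℝ) ^ (-(P.κ : ℝ) / 2) := by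
  classical
  have he := P.ε0
  have he1 := P.ε1
  set δ : ℝ := P.ε / (2 * (1 + P.ε)) with hδ
  have hδ0 : 0 < δ := by positivity
  have hδ1 : δ ≤ 1 / 2 := by
    rw [hδ, div_le_div_iff₀ (by positivity) (by norm_num)]
    linarith
  have hδ2 : 1 / (1 + P.ε) = 1 - 2 * δ := by
    rw [hδ]
    field_simp
    ring
  set r : ℝ := (2 : ℝ) ^ (-δ) with hr
  have hr0 : 0 < r := Real.rpow_pos_of_pos (by norm_num) _
  have hr1 : r < 1 := Real.rpow_lt_one_of_one_lt_of_neg (by norm_num) (by linarith)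
  have hκ : ∀ x ∈ F, P.κ ≤ x.2 := fun x hx => by
    obtain ⟨q, hq⟩ := hF x hx
    exact hq.κ_le
  have hk1 : ∀ x ∈ F, 1 ≤ x.2 := fun x hx => P.κ1.trans (hκ x hx)
  -- one `k`
  have hone : ∀ k ∈ F.image Prod.snd, ∑ x ∈ F with x.2 = k, tm η m x.2 ≤
      234 * (2 : ℝ) ^ (-(P.κ : ℝ) / 2) * r ^ (k - P.κ) := by
    intro k hk
    obtain ⟨x0, hx0, hx0k⟩ := Finset.mem_image.1 hk
    have hkκ : P.κ ≤ k := hx0k ▸ hκ x0 hx0
    have hkk : 1 ≤ k := P.κ1.trans hkκ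
    have hs : ∑ x ∈ F with x.2 = k, tm η m x.2 =
        ((F.filter fun x => x.2 = k).card : ℝ) * tm η m k := by
      rw [Finset.sum_congr rfl (g := fun _ => tm η m k) (fun x hx => by
        rw [(Finset.mem_filter.1 hx).2]), Finset.sum_const, nsmul_eq_mul]
    have h2 : ((F.filter fun x => x.2 = k).card : ℝ) ≤
        13 * (2 : ℝ) ^ (((k : ℝ) - P.κ) / (1 + P.ε)) := by
      have h3 : (F.filter fun x => x.2 = k).card =
          ((F.filter fun x => x.2 = k).image Prod.fst).card := by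
        rw [Finset.card_image_of_injOn]
        intro x hx y hy hxy
        have hx' := (Finset.mem_filter.1 hx).2
        have hy' := (Finset.mem_filter.1 hy).2
        exact Prod.ext hxy (hx'.trans hy'.symm)
      rw [h3]
      refine card_n P (m + 1) k _ fun n hn => ?_
      obtain ⟨x, hx, rfl⟩ := Finset.mem_image.1 hn
      obtain ⟨hx1, hx2⟩ := Finset.mem_filter.1 hx
      obtain ⟨q, hq⟩ := hF x hx1
      exact ⟨q, hx2 ▸ hq⟩
    have h4 := tm_le η h0 h1 m k hkk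
    have h5 : (1 / (1 - η)) ^ (5 * k) ≤ (2 : ℝ) ^ ((k : ℝ) * δ) := by
      have h6 : (0 : ℝ) ≤ (1 / (1 - η)) ^ 5 := by
        have : (0 : ℝ) < 1 - η := by linarith
        positivity
      calc (1 / (1 - η)) ^ (5 * k) = ((1 / (1 - η)) ^ 5) ^ k := by rw [pow_mul]
        _ ≤ ((2 : ℝ) ^ δ) ^ k := pow_le_pow_left₀ h6 hη k
        _ = (2 : ℝ) ^ ((k : ℝ) * δ) := by
            rw [← Real.rpow_natCast, ← Real.rpow_mul (by norm_num), mul_comm]
    have h7 : tm η m k ≤ 18 * (2 : ℝ) ^ ((k : ℝ) * δ - k) := by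
      rw [Real.rpow_sub (by norm_num), Real.rpow_natCast]
      calc tm η m k ≤ 18 / 2 ^ k * (1 / (1 - η)) ^ (5 * k) := h4
        _ ≤ 18 / 2 ^ k * (2 : ℝ) ^ ((k : ℝ) * δ) := by gcongr
        _ = _ := by ring
    have hP : (0 : ℝ) < 2 ^ (((k : ℝ) - P.κ) / (1 + P.ε)) := Real.rpow_pos_of_pos (by norm_num) _
    rw [hs]
    calc ((F.filter fun x => x.2 = k).card : ℝ) * tm η m k
        ≤ ((F.filter fun x => x.2 = k).card : ℝ) * (18 * (2 : ℝ) ^ ((k : ℝ) * δ - k)) := by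
          gcongr
      _ ≤ (13 * (2 : ℝ) ^ (((k : ℝ) - P.κ) / (1 + P.ε))) * (18 * (2 : ℝ) ^ ((k : ℝ) * δ - k)) := by
          have : (0 : ℝ) < 2 ^ ((k : ℝ) * δ - k) := Real.rpow_pos_of_pos (by norm_num) _
          gcongr
      _ = 234 * (2 : ℝ) ^ (((k : ℝ) - P.κ) / (1 + P.ε) + ((k : ℝ) * δ - k)) := by
          rw [Real.rpow_add (by norm_num)]
          ring
      _ ≤ 234 * (2 : ℝ) ^ (-(P.κ : ℝ) / 2 + -δ * ((k : ℝ) - P.κ)) := by
          refine mul_le_mul_of_nonneg_left ?_ (by norm_num)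
          refine Real.rpow_le_rpow_of_exponent_le (by norm_num) ?_
          have e1 : ((k : ℝ) - P.κ) / (1 + P.ε) = ((k : ℝ) - P.κ) * (1 - 2 * δ) := by
            rw [← hδ2]
            ring
          rw [e1]
          have e2 : (0 : ℝ) ≤ P.κ := Nat.cast_nonneg _
          nlinarith [mul_nonneg e2 (sub_nonneg.2 hδ1)]
      _ = 234 * (2 : ℝ) ^ (-(P.κ : ℝ) / 2) * r ^ (k - P.κ) := by
          rw [Real.rpow_add (by norm_num), hr, ← Real.rpow_natCast, ← Real.rpow_mul (by norm_num),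
            Nat.cast_sub hkκ]
          ring
  have hgeo : ∑ k ∈ F.image Prod.snd, r ^ (k - P.κ) ≤ 1 / (1 - r) := by
    have h1 : ∑ k ∈ F.image Prod.snd, r ^ (k - P.κ) =
        ∑ j ∈ (F.image Prod.snd).image (fun k => k - P.κ), r ^ j := by
      refine (Finset.sum_image (f := fun j => r ^ j) (g := fun k => k - P.κ) ?_).symm
      intro a ha b hb hab
      obtain ⟨x, hx, rfl⟩ := Finset.mem_image.1 ha
      obtain ⟨y, hy, rfl⟩ := Finset.mem_image.1 hb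
      have h2 := hκ x hx
      have h3 := hκ y hy
      have hab' : x.2 - P.κ = y.2 - P.κ := hab
      omega
    rw [h1, one_div, ← tsum_geometric_of_lt_one hr0.le hr1]
    exact (summable_geometric_of_lt_one hr0.le hr1).sum_le_tsum _ fun j _ => by positivity
  rw [← Finset.sum_fiberwise_of_maps_to (g := Prod.snd) (t := F.image Prod.snd)
    (fun x hx => Finset.mem_image_of_mem _ hx)]
  calc ∑ k ∈ F.image Prod.snd, ∑ x ∈ F with x.2 = k, tm η m x.2
      ≤ ∑ k ∈ F.image Prod.snd, 234 * (2 : ℝ) ^ (-(P.κ : ℝ) / 2) * r ^ (k - P.κ) :=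
        Finset.sum_le_sum hone
    _ = 234 * (2 : ℝ) ^ (-(P.κ : ℝ) / 2) * ∑ k ∈ F.image Prod.snd, r ^ (k - P.κ) := by
        rw [Finset.mul_sum]
    _ ≤ 234 * (2 : ℝ) ^ (-(P.κ : ℝ) / 2) * (1 / (1 - r)) := by
        have : (0 : ℝ) < (2 : ℝ) ^ (-(P.κ : ℝ) / 2) := Real.rpow_pos_of_pos (by norm_num) _
        gcongr
    _ = _ := by
        rw [hr]
        ring

end Pool.Agent.H46.LX
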