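import Mathlib

/-!
# Module Ph (about 90 lines): pigeonhole in a plane

Proof. Let `N = card S ≥ 2`, `k' = ⌈√N⌉ - 1 ≥ 1`, so `k'^2 < N` and `k' ≥ √N/2` (for `N ≥ 4`:
`k' ≥ √N - 1 ≥ √N/2`; for `N = 2, 3`: `√N/2 < 1 ≤ k'`). Let `j` be an index with `|ν j|` maximal
(so `ν j ≠ 0`) and `i₁, i₂` the two others. Map `u ∈ S` to the cell
`(⌊k' (u i₁ + 1)/2⌋, ⌊k' (u i₂ + 1)/2⌋)` in `{0..k'-1}^2` (the value `k'` put into `k'-1`). Two
different `u, v` lie in one cell, so `|u i₁ - v i₁|, |u i₂ - v i₂| ≤ 2/k'`, and by the plane equation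
`|u j - v j| = |ν i₁ (u i₁ - v i₁) + ν i₂ (u i₂ - v i₂)| / |ν j| ≤ 4/k' ≤ 8/√N`.
(`Finset.exists_ne_map_eq_of_card_lt_of_maps_to`.) To avoid three cases one can permute the
coordinates first.
-/

set_option autoImplicit false

namespace Pool.Agent.H46.LX

private theorem Ph_cell (k : ℕ) (hk : 1 ≤ k) (t : ℝ) (h0 : 0 ≤ t) (h1 : t ≤ k) :
    ((min (k - 1) ⌊t⌋₊ : ℕ) : ℝ) ≤ t ∧ t ≤ ((min (k - 1) ⌊t⌋₊ : ℕ) : ℝ) + 1 := by
  have hf : ((⌊t⌋₊ : ℕ) : ℝ) ≤ t := Nat.floor_le h0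
  constructor
  · refine le_trans ?_ hf
    exact_mod_cast min_le_right _ _
  · rcases le_total (k - 1) ⌊t⌋₊ with h | h
    · rw [min_eq_left h]
      have : ((k - 1 : ℕ) : ℝ) + 1 = k := by
        rw [Nat.cast_sub hk]
        push_cast
        ring
      rw [this]
      exact h1
    · rw [min_eq_right h]
      exact (Nat.lt_floor_add_one t).le

private theorem Ph_close (k : ℕ) (hk : 1 ≤ k) (x y : ℝ) (hx : |x| ≤ 1) (hy : |y| ≤ 1)
    (h : min (k - 1) ⌊(k : ℝ) * (x + 1) / 2⌋₊ = min (k - 1) ⌊(k : ℝ) * (y + 1) / 2⌋₊) :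
    |x - y| ≤ 2 / k := by
  have hk0 : (0 : ℝ) < k := by exact_mod_cast hk
  have hx' := abs_le.1 hx
  have hy' := abs_le.1 hy
  have a1 : 0 ≤ (k : ℝ) * (x + 1) / 2 := by
    have : 0 ≤ x + 1 := by linarith
    positivity
  have a2 : (k : ℝ) * (x + 1) / 2 ≤ k := by nlinarith
  have b1 : 0 ≤ (k : ℝ) * (y + 1) / 2 := by
    have : 0 ≤ y + 1 := by linarith
    positivity
  have b2 : (k : ℝ) * (y + 1) / 2 ≤ k := by nlinarith
  obtain ⟨c1, c2⟩ := Ph_cell k hk _ a1 a2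
  obtain ⟨d1, d2⟩ := Ph_cell k hk _ b1 b2
  rw [h] at c1 c2
  rw [le_div_iff₀ hk0]
  have e : |x - y| * (k : ℝ) = |(x - y) * k| := by rw [abs_mul, abs_of_pos hk0]
  rw [e, abs_le]
  constructor <;> nlinarith

private theorem Ph_idx (j : Fin 3) : ∃ i₁ i₂ : Fin 3, (∀ f : Fin 3 → ℝ, ∑ i, f i = f j + (f i₁ + f i₂)) ∧
    ∀ i : Fin 3, i = j ∨ i = i₁ ∨ i = i₂ := by
  fin_cases j
  · refine ⟨1, 2, ?_, ?_⟩
    · intro f
      rw [Fin.sum_univ_three]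
      show f 0 + f 1 + f 2 = f 0 + (f 1 + f 2)
      ring
    · decide
  · refine ⟨0, 2, ?_, ?_⟩
    · intro f
      rw [Fin.sum_univ_three]
      show f 0 + f 1 + f 2 = f 1 + (f 0 + f 2)
      ring
    · decide
  · refine ⟨0, 1, ?_, ?_⟩
    · intro f
      rw [Fin.sum_univ_three]
      show f 0 + f 1 + f 2 = f 2 + (f 0 + f 1)
      ring
    · decide

theorem ph (S : Finset (Fin 3 → ℝ)) (h : ∀ u ∈ S, ∀ i, |u i| ≤ 1) (ν : Fin 3 → ℝ) (hν : ν ≠ 0)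
    (hp : ∀ u ∈ S, ∑ i, ν i * u i = 0) (hN : 2 ≤ S.card) :
    ∃ u ∈ S, ∃ v ∈ S, u ≠ v ∧ ∀ i, |u i - v i| ≤ 8 / √(S.card : ℝ) := by
  classical
  set N := S.card with hNdef
  set k := Nat.sqrt (N - 1) with hkdef
  have hk : 1 ≤ k := by
    rw [hkdef, Nat.le_sqrt]
    omega
  have hk2 : k * k < N := by
    have : k * k ≤ N - 1 := Nat.sqrt_le (N - 1)
    omega
  have hk3 : N ≤ (k + 1) * (k + 1) := by
    have := Nat.lt_succ_sqrt (N - 1)
    have h2 : N - 1 < (k + 1) * (k + 1) := this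
    omega
  have hk0 : (0 : ℝ) < k := by exact_mod_cast hk
  have hN0 : (0 : ℝ) < N := by
    have : 0 < N := by omega
    exact_mod_cast this
  have hsq : √(N : ℝ) ≤ 2 * k := by
    have h1 : √(N : ℝ) ≤ (k : ℝ) + 1 := by
      rw [Real.sqrt_le_left (by positivity)]
      have : ((N : ℕ) : ℝ) ≤ (((k + 1) * (k + 1) : ℕ) : ℝ) := by exact_mod_cast hk3
      push_cast at this
      nlinarith
    have h2 : (1 : ℝ) ≤ k := by exact_mod_cast hk
    linarith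
  have hsp : 0 < √(N : ℝ) := Real.sqrt_pos.2 hN0
  have h48 : 4 / (k : ℝ) ≤ 8 / √(N : ℝ) := by
    rw [div_le_div_iff₀ hk0 hsp]
    linarith
  have h24 : 2 / (k : ℝ) ≤ 4 / (k : ℝ) := by
    apply div_le_div_of_nonneg_right _ hk0.le
    norm_num
  obtain ⟨j, hj⟩ := Finite.exists_max (fun i : Fin 3 => |ν i|)
  obtain ⟨i₁, i₂, hsum, hcov⟩ := Ph_idx j
  have hνj : 0 < |ν j| := by
    by_contra hcon
    have h0 : |ν j| = 0 := le_antisymm (not_lt.1 hcon) (abs_nonneg _)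
    apply hν
    funext i
    have h1 := hj i
    rw [h0] at h1
    exact abs_eq_zero.1 (le_antisymm h1 (abs_nonneg _))
  let c : (Fin 3 → ℝ) → ℕ × ℕ := fun u =>
    (min (k - 1) ⌊(k : ℝ) * (u i₁ + 1) / 2⌋₊, min (k - 1) ⌊(k : ℝ) * (u i₂ + 1) / 2⌋₊)
  have hmaps : ∀ u ∈ S, c u ∈ (Finset.range k ×ˢ Finset.range k) := by
    intro u _
    have e : ∀ m : ℕ, min (k - 1) m < k := by
      intro m
      have := min_le_left (k - 1) m
      omega
    exact Finset.mem_product.2 ⟨Finset.mem_range.2 (e _), Finset.mem_range.2 (e _)⟩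
  have hcard : (Finset.range k ×ˢ Finset.range k).card < S.card := by
    rw [Finset.card_product, Finset.card_range]
    exact hk2
  obtain ⟨u, hu, v, hv, huv, hc⟩ := Finset.exists_ne_map_eq_of_card_lt_of_maps_to hcard hmaps
  have hc1 : min (k - 1) ⌊(k : ℝ) * (u i₁ + 1) / 2⌋₊ = min (k - 1) ⌊(k : ℝ) * (v i₁ + 1) / 2⌋₊ :=
    congrArg Prod.fst hc
  have hc2 : min (k - 1) ⌊(k : ℝ) * (u i₂ + 1) / 2⌋₊ = min (k - 1) ⌊(k : ℝ) * (v i₂ + 1) / 2⌋₊ :=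
    congrArg Prod.snd hc
  have e1 := Ph_close k hk _ _ (h u hu i₁) (h v hv i₁) hc1
  have e2 := Ph_close k hk _ _ (h u hu i₂) (h v hv i₂) hc2
  have pu := hp u hu
  have pv := hp v hv
  rw [hsum] at pu pv
  have e3 : |u j - v j| ≤ 4 / (k : ℝ) := by
    have h1 : ν j * (u j - v j) = -(ν i₁ * (u i₁ - v i₁) + ν i₂ * (u i₂ - v i₂)) := by linarith
    have h2 : |ν j| * |u j - v j| ≤ |ν j| * (4 / (k : ℝ)) := by
      rw [← abs_mul, h1, abs_neg]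
      refine (abs_add_le _ _).trans ?_
      rw [abs_mul, abs_mul]
      have g1 : |ν i₁| * |u i₁ - v i₁| ≤ |ν j| * (2 / (k : ℝ)) :=
        mul_le_mul (hj i₁) e1 (abs_nonneg _) (abs_nonneg _)
      have g2 : |ν i₂| * |u i₂ - v i₂| ≤ |ν j| * (2 / (k : ℝ)) :=
        mul_le_mul (hj i₂) e2 (abs_nonneg _) (abs_nonneg _)
      have g3 : |ν j| * (2 / (k : ℝ)) + |ν j| * (2 / (k : ℝ)) = |ν j| * (4 / (k : ℝ)) := by ring
      linarith
    exact le_of_mul_le_mul_left h2 hνj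
  refine ⟨u, hu, v, hv, huv, ?_⟩
  intro i
  rcases hcov i with h1 | h1 | h1
  · rw [h1]
    exact e3.trans h48
  · rw [h1]
    exact (e1.trans h24).trans h48
  · rw [h1]
    exact (e2.trans h24).trans h48

end Pool.Agent.H46.LX
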